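import Pool.Agent.Lib.MuZ.Pub
import Pool.Agent.Lib.MuZ.AsmB
import Pool.Agent.Lib.MuZ.Res
import Pool.Agent.Lib.MuZ.Ext
import Pool.Agent.Lib.MuZ.Alg
import Pool.Agent.Lib.MuZ.Cliff
import Pool.Agent.Lib.MuZ.Crit
import Pool.Agent.Lib.MuZ.Conj
import Pool.Agent.Lib.MuZ.Ram
import Pool.Agent.Lib.MuZ.Frob
import Pool.Agent.Lib.MuZ.Pow
import Pool.Agent.Lib.MuZ.Tot
import Pool.Agent.Lib.MuZ.Orb
import Pool.Agent.Lib.MuZ.Sup
import Pool.Agent.Lib.MuZ.Fld
import Pool.Agent.Lib.MuZ.Fwd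
import Pool.Agent.Lib.MuZ.Bwd
import Pool.Agent.Lib.MuZ.Vec

/-!
# MP_d0239a_nt: reduction of the mu = 0 conjecture to vector fields of degree prime to p
-/

namespace Pool.Agent.Lib.FW.Old.VectorFields

open Pool.Agent.MuP

/-- Let `k` be a number field. `X(F^cyc)` is finitely generated over `ℤ_p` for all number fields `F` if
and only if it is for the number fields `F` containing `k` with `[F : k]` prime to `p` such that
`Gal(Ω/F)` is the stabiliser of a nonzero vector in an irreducible representation of `Gal(Ω/k)` over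
`F_p`. -/
theorem result (p : ℕ) [Fact p.Prime] (k : Fd) (hk : IsNF k) :
    (∀ F : Fd, IsNF F → XFinGen p (cyc p F)) ↔
      ∀ F : Fd, IsNF F → k ≤ F → VectorField p k F → ¬ p * deg k ∣ deg F →
        XFinGen p (cyc p F) := by
  have h := MuZ.thmB (MuZ.thmA MuZ.res MuZ.ext MuZ.alg MuZ.cliff MuZ.crit MuZ.conj MuZ.ram
    MuZ.frob MuZ.pow MuZ.tot MuZ.orb MuZ.sup MuZ.fld MuZ.fwd MuZ.bwd) MuZ.vec p k hk
  constructor
  · intro h1 F hF _ _ _
    exact h1 F hF
  · intro h1 F hF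
    rw [XFinGen_cyc_iff]
    refine h.2 ?_ F hF
    intro F' hF' hk' hv hd
    exact (XFinGen_cyc_iff p F').1 (h1 F' hF' hk' hv hd)

end Pool.Agent.Lib.FW.Old.VectorFields
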